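import Mathlib

namespace Pool.Agent.H.MP_69d63a_nt

noncomputable def gap (n : ℕ) : ℤ := (Nat.nth Nat.Prime n : ℤ) - (Nat.nth Nat.Prime (n - 1) : ℤ)

noncomputable def score (n : ℕ) : ℤ := ∑ k ∈ Finset.Icc 2 n, Int.sign (gap k - gap (k - 1))

lemma score_succ (n : ℕ) (hn : 1 ≤ n) :
    score (n + 1) = score n + Int.sign (gap (n + 1) - gap n) := by
  unfold score
  rw [Finset.sum_Icc_succ_top (by omega)]
  simp

lemma test_ok (B P e : ℕ) (h1 : P ∣ B.factorial) (h2 : B.factorial ∣ P ^ e) (x : ℕ) (hB : 1 ≤ B)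
    (hx1 : B < x) (hx2 : x < (B + 1) ^ 2) : Nat.gcd x P = 1 ↔ x.Prime := by
  have hx : x ≠ 1 := by omega
  have a : Nat.Coprime x P ↔ Nat.Coprime x B.factorial :=
    ⟨fun h => Nat.Coprime.coprime_dvd_right h2 (Nat.Coprime.pow_right e h),
      fun h => Nat.Coprime.coprime_dvd_right h1 h⟩
  change Nat.Coprime x P ↔ _
  rw [a, Nat.coprime_factorial_iff hx]
  constructor
  · intro h
    by_contra hn
    have := Nat.minFac_sq_le_self (by omega) hn
    nlinarith
  · intro h
    rw [h.minFac_eq]; exact hx1

noncomputable def nx (P : ℕ) (fuel : ℕ) : ℕ → ℕ :=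
  Nat.rec (fun _ => 0) (fun _ ih m =>
    Bool.rec (motive := fun _ => ℕ) (ih (Nat.add m 2)) m (Nat.beq (Nat.gcd m P) 1)) fuel

def ap (f : ℕ → ℕ → ℕ → ℕ × ℕ × ℕ) (a b c : ℕ) : ℕ × ℕ × ℕ := f a b c

noncomputable def run (P : ℕ) (fuel : ℕ) : ℕ → ℕ → ℕ → ℕ × ℕ × ℕ :=
  Nat.rec (fun p g s => (p, g, s)) (fun _ ih p g s =>
    Nat.rec (motive := fun _ => ℕ × ℕ × ℕ) (0, 0, 0) (fun q _ =>
      Nat.rec (motive := fun _ => ℕ × ℕ × ℕ) (0, 0, 0) (fun h _ =>
        Nat.rec (motive := fun _ => ℕ × ℕ × ℕ) (0, 0, 0) (fun s' _ => ap ih (Nat.succ q) h s')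
        (Bool.rec (motive := fun _ => ℕ) (Nat.add s 2)
          (Bool.rec (motive := fun _ => ℕ) s (Nat.succ s) (Nat.ble g h)) (Nat.ble h g)))
       (Nat.sub (Nat.succ q) p))
      (nx P 200 (Nat.add p 2))) fuel

lemma nx_spec (P f : ℕ) : ∀ m r, nx P f m = r + 1 → Nat.gcd (r + 1) P = 1 ∧ m ≤ r + 1 ∧
    ∀ x, m ≤ x → x < r + 1 → x % 2 = m % 2 → Nat.gcd x P ≠ 1 := by
  induction f with
  | zero => intro m r h; simp [nx] at h
  | succ f ih =>
    intro m r h
    have hs : nx P (f + 1) m = Bool.rec (motive := fun _ => ℕ) (nx P f (m + 2)) m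
        (Nat.beq (Nat.gcd m P) 1) := rfl
    rw [hs] at h
    cases hb : Nat.beq (Nat.gcd m P) 1
    · rw [hb] at h
      obtain ⟨h1, h2, h3⟩ := ih (m + 2) r h
      refine ⟨h1, by omega, fun x a b c => ?_⟩
      by_cases hx : x = m
      · subst hx
        intro h4
        rw [h4] at hb
        exact absurd hb (by decide)
      · exact h3 x (by omega) b (by omega)
    · rw [hb] at h
      change m = r + 1 at h
      subst h
      exact ⟨Nat.eq_of_beq_eq_true hb, le_rfl, fun x a b => by omega⟩

lemma run_step (P f p g s p' g' s' : ℕ) (h : run P (f + 1) p g s = (p', g', s')) (h0 : p' ≠ 0) :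
    ∃ q k t : ℕ, nx P 200 (p + 2) = q + 1 ∧ q + 1 - p = k + 1 ∧
      (t : ℤ) = s + Int.sign ((k : ℤ) - g) ∧ run P f (q + 1) k t = (p', g', s') := by
  have hs : run P (f + 1) p g s =
    Nat.rec (motive := fun _ => ℕ × ℕ × ℕ) (0, 0, 0) (fun q _ =>
      Nat.rec (motive := fun _ => ℕ × ℕ × ℕ) (0, 0, 0) (fun h _ =>
        Nat.rec (motive := fun _ => ℕ × ℕ × ℕ) (0, 0, 0) (fun s' _ => run P f (q + 1) h s')
        (Bool.rec (motive := fun _ => ℕ) (s + 2)
          (Bool.rec (motive := fun _ => ℕ) s (s + 1) (Nat.ble g h)) (Nat.ble h g)))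
       (q + 1 - p))
      (nx P 200 (p + 2)) := rfl
  rw [hs] at h
  cases h1 : nx P 200 (p + 2) with
  | zero => rw [h1] at h; simp at h; omega
  | succ q =>
    rw [h1] at h
    simp only at h
    cases h2 : q + 1 - p with
    | zero => rw [h2] at h; simp at h; omega
    | succ k =>
      rw [h2] at h
      simp only at h
      cases h3 : Nat.ble k g
      · have a : g < k := by
          by_contra hc
          have := Nat.ble_eq_true_of_le (not_lt.1 hc)
          rw [h3] at this; exact absurd this (by decide)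
        rw [h3] at h
        exact ⟨q, k, s + 1, rfl, h2, by rw [Int.sign_eq_one_of_pos (by omega)]; push_cast; ring, h⟩
      · have a : k ≤ g := Nat.le_of_ble_eq_true h3
        rw [h3] at h
        cases h4 : Nat.ble g k
        · have b : k < g := by
            by_contra hc
            have := Nat.ble_eq_true_of_le (not_lt.1 hc)
            rw [h4] at this; exact absurd this (by decide)
          rw [h4] at h
          cases s with
          | zero => simp at h; omega
          | succ s =>
            exact ⟨q, k, s, rfl, h2,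
              by rw [Int.sign_eq_neg_one_of_neg (by omega)]; push_cast; ring, h⟩
        · have b : g ≤ k := Nat.le_of_ble_eq_true h4
          rw [h4] at h
          exact ⟨q, k, s, rfl, h2, by rw [show k = g by omega]; simp, h⟩

lemma run_mono (P f : ℕ) : ∀ p g s p' g' s' : ℕ, run P f p g s = (p', g', s') → p' ≠ 0 → p ≤ p' := by
  induction f with
  | zero =>
    intro p g s p' g' s' h _
    simp only [run, Nat.rec_zero, Prod.mk.injEq] at h
    omega
  | succ f ih =>
    intro p g s p' g' s' h h0
    obtain ⟨q, k, t, -, h2, -, h4⟩ := run_step P f p g s p' g' s' h h0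
    have := ih _ _ _ _ _ _ h4 h0
    omega

def Inv (i p g s : ℕ) : Prop :=
  1 ≤ i ∧ p = Nat.nth Nat.Prime i ∧ (g : ℤ) + 1 = gap i ∧ (s : ℤ) - 1000 = score i

lemma nth_next (i q : ℕ) (hq : q.Prime) (h1 : Nat.nth Nat.Prime i < q)
    (h2 : ∀ x, Nat.nth Nat.Prime i < x → x < q → ¬ x.Prime) : Nat.nth Nat.Prime (i + 1) = q := by
  have hinf := Nat.infinite_setOfPred_prime
  have a : Nat.nth Nat.Prime i < Nat.nth Nat.Prime (i + 1) := Nat.nth_strictMono hinf (by omega)
  apply le_antisymm
  · have e := Nat.nth_count hq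
    rw [← e] at h1 ⊢
    have := (Nat.nth_strictMono hinf).lt_iff_lt.1 h1
    exact (Nat.nth_strictMono hinf).monotone this
  · by_contra hc
    exact h2 _ a (not_le.1 hc) (Nat.prime_nth_prime _)

lemma run_inv (P L U : ℕ) (hP : ∀ x, L < x → x < U → (Nat.gcd x P = 1 ↔ x.Prime)) (f : ℕ) :
    ∀ i p g s p' g' s' : ℕ, Inv i p g s → L < p + 2 → run P f p g s = (p', g', s') → p' ≠ 0 →
      p' < U → Inv (i + f) p' g' s' := by
  induction f with
  | zero =>
    intro i p g s p' g' s' hi _ h _ _
    simp only [run, Nat.rec_zero, Prod.mk.injEq] at h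
    obtain ⟨rfl, rfl, rfl⟩ := h
    exact hi
  | succ f ih =>
    intro i p g s p' g' s' hi hL h h0 hU
    obtain ⟨q, k, t, h1, h2, h3, h4⟩ := run_step P f p g s p' g' s' h h0
    have hm := run_mono _ _ _ _ _ _ _ _ h4 h0
    obtain ⟨n1, n2, n3⟩ := nx_spec _ _ _ _ h1
    obtain ⟨i1, i2, i3, i4⟩ := hi
    have hp : p.Prime := by rw [i2]; exact Nat.prime_nth_prime _
    have hp3 : 3 ≤ p := by
      rw [i2, ← Nat.nth_prime_one_eq_three]
      exact (Nat.nth_strictMono Nat.infinite_setOfPred_prime).monotone i1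
    have hodd : p % 2 = 1 := by
      rcases hp.eq_two_or_odd with h | h <;> omega
    have hq : Nat.nth Nat.Prime (i + 1) = q + 1 := by
      apply nth_next i (q + 1) ((hP _ (by omega) (by omega)).1 n1) (by omega)
      intro x a b hx
      rcases hx.eq_two_or_odd with h | h
      · omega
      · exact n3 x (by omega) b (by omega) ((hP x (by omega) (by omega)).2 hx)
    have hg : (k : ℤ) + 1 = gap (i + 1) := by
      unfold gap
      simp only [Nat.add_sub_cancel]
      rw [hq, ← i2]
      omega
    have := ih (i + 1) (q + 1) k t p' g' s' ⟨by omega, hq.symm, hg, by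
      rw [score_succ i i1, ← i4, ← hg, ← i3, h3]; ring_nf⟩ (by omega) h4 h0 hU
    rwa [show i + (f + 1) = i + 1 + f by ring]

lemma inv2 : Inv 2 5 1 1001 := by
  refine ⟨by norm_num, by simp, ?_, ?_⟩
  · simp [gap]
  · simp [score, gap]

def PP : ℕ := 330299814997665459752503875936311543658654867563977165754682006007076789023726298028755353475271999414453764134871401945863424316247498974525140884502213619463897242701793280976314619522940952707678656355866315555813453709146270396483864711972590100553162544989477344756108882470964672146103057849578011704570100638149372613055636349494040526380005363336573870322107486828807474961912982325253455883323020690855949007426633568611938908672810913185726817817735856245280443222830596087494005801000571579740438132076783124492309104396505888935213078665394872422903777412625904361394221872967927700481448076066485794738700362833072432132949703400435636025207134810624436376055618005498163855585536582182713434179261367383522239622181965584795602707040077669355630046755401445847804541645846120576194385396822416810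

lemma PP_ok (x : ℕ) (h1 : 1914 < x) (h2 : x < 3667225) : Nat.gcd x PP = 1 ↔ x.Prime :=
  test_ok 1914 PP 1914 (Nat.dvd_of_mod_eq_zero (by decide +kernel)) (Nat.dvd_of_mod_eq_zero (by decide +kernel)) x (by norm_num) h1 (by omega)

lemma inv14 : Inv 14 47 3 1002 :=
  run_inv 30 6 49 (fun x h1 h2 => test_ok 6 30 4 (by decide) (by decide) x (by norm_num) h1 h2) 12 2 5 1 1001 _ _ _ inv2 (by norm_num) (by decide +kernel) (by norm_num) (by norm_num)

lemma inv292 : Inv 292 1913 5 1011 :=
  run_inv 13082761331670030 44 2025 (fun x h1 h2 => test_ok 44 13082761331670030 44 (Nat.dvd_of_mod_eq_zero (by decide +kernel)) (Nat.dvd_of_mod_eq_zero (by decide +kernel)) x (by norm_num) h1 h2) 278 14 47 3 1002 _ _ _ inv14 (by norm_num) (by decide +kernel) (by norm_num) (by norm_num)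

end Pool.Agent.H.MP_69d63a_nt
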