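import Pool.Agent.H.MP_69d63a_nt.A

namespace Pool.Agent.H.MP_69d63a_nt

lemma r128000 : run PP 30000 1271299 5 1141 = (1698089, 11, 1008) := by decide +kernel

lemma r157000 : run PP 29000 1698089 11 1008 = (2117147, 15, 871) := by decide +kernel

lemma r185000 : run PP 28000 2117147 15 871 = (2528419, 7, 760) := by decide +kernel

end Pool.Agent.H.MP_69d63a_nt
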