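import Pool.Agent.H.MP_69d63a_nt.A

namespace Pool.Agent.H.MP_69d63a_nt

lemma r211000 : run PP 26000 2528419 7 760 = (2913263, 3, 748) := by decide +kernel

lemma r236000 : run PP 25000 2913263 3 748 = (3286369, 37, 809) := by decide +kernel

lemma r261150 : run PP 25150 3286369 37 809 = (3666581, 41, 1001) := by decide +kernel

end Pool.Agent.H.MP_69d63a_nt
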