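import Pool.Agent.H.MP_69d63a_nt.B1
import Pool.Agent.H.MP_69d63a_nt.B2
import Pool.Agent.H.MP_69d63a_nt.B3

namespace Pool.Agent.H.MP_69d63a_nt

lemma inv35000 : Inv 35000 414991 13 1039 :=
  run_inv PP 1914 3667225 PP_ok 34708 292 1913 5 1011 _ _ _ inv292 (by norm_num) r35000 (by norm_num) (by norm_num)

lemma inv67000 : Inv 67000 841541 81 1045 :=
  run_inv PP 1914 3667225 PP_ok 32000 35000 414991 13 1039 _ _ _ inv35000 (by norm_num) r67000 (by norm_num) (by norm_num)

lemma inv98000 : Inv 98000 1271299 5 1141 :=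
  run_inv PP 1914 3667225 PP_ok 31000 67000 841541 81 1045 _ _ _ inv67000 (by norm_num) r98000 (by norm_num) (by norm_num)

lemma inv128000 : Inv 128000 1698089 11 1008 :=
  run_inv PP 1914 3667225 PP_ok 30000 98000 1271299 5 1141 _ _ _ inv98000 (by norm_num) r128000 (by norm_num) (by norm_num)

lemma inv157000 : Inv 157000 2117147 15 871 :=
  run_inv PP 1914 3667225 PP_ok 29000 128000 1698089 11 1008 _ _ _ inv128000 (by norm_num) r157000 (by norm_num) (by norm_num)

lemma inv185000 : Inv 185000 2528419 7 760 :=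
  run_inv PP 1914 3667225 PP_ok 28000 157000 2117147 15 871 _ _ _ inv157000 (by norm_num) r185000 (by norm_num) (by norm_num)

lemma inv211000 : Inv 211000 2913263 3 748 :=
  run_inv PP 1914 3667225 PP_ok 26000 185000 2528419 7 760 _ _ _ inv185000 (by norm_num) r211000 (by norm_num) (by norm_num)

lemma inv236000 : Inv 236000 3286369 37 809 :=
  run_inv PP 1914 3667225 PP_ok 25000 211000 2913263 3 748 _ _ _ inv211000 (by norm_num) r236000 (by norm_num) (by norm_num)

lemma inv261150 : Inv 261150 3666581 41 1001 :=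
  run_inv PP 1914 3667225 PP_ok 25150 236000 3286369 37 809 _ _ _ inv236000 (by norm_num) r261150 (by norm_num) (by norm_num)

theorem main : score 261150 = 1 ∧ ∃ n, 250000 < n ∧ 0 < score n := by
  have h := inv261150.2.2.2
  have h1 : score 261150 = 1 := by
    rw [← h]; norm_num
  exact ⟨h1, 261150, by norm_num, by rw [h1]; norm_num⟩

end Pool.Agent.H.MP_69d63a_nt
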