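import Pool.Agent.H.MP_69d63a_nt.A

namespace Pool.Agent.H.MP_69d63a_nt

lemma r35000 : run PP 34708 1913 5 1011 = (414991, 13, 1039) := by decide +kernel

lemma r67000 : run PP 32000 414991 13 1039 = (841541, 81, 1045) := by decide +kernel

lemma r98000 : run PP 31000 841541 81 1045 = (1271299, 5, 1141) := by decide +kernel

end Pool.Agent.H.MP_69d63a_nt
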